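import Pool.Graph.R_pool_sql_team_39128cda.Results.MP_bb7684_lc.Tight

/-!
# A family of unions of products of counter conditions, and its exact ambiguity

For a finite family `e i : Fin d → Option (Fin K)` (`i : ι`) of sets of letters we consider the
language of the sorted words `w` over `x_1, …, x_K, y_1, …, y_K` such that for some `i` we have
`|w|_{y_z} ≤ |w|_{x_z}` for all letters `z` of the `i`-th set.  If the sets form an antichain, then the
ambiguity of this language is exactly the number of the sets.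
-/

set_option autoImplicit false
set_option linter.unusedSimpArgs false
set_option linter.unusedVariables false

namespace Pool.Agent.KS6_62.Vass

open List Pool.Agent.Results.MP_bb7684_lc.Tight

section
variable {K d : ℕ} {ι : Type} (e : ι → Fin d → Option (Fin K))

/-- the effect of the letter `c` on the counters -/
def ef (i : ι) (c : Fin (K + K)) : Fin d → ℤ := fun m =>
  if (e i m).map (Fin.castAdd K) = some c then 1
  else if (e i m).map (Fin.natAdd K) = some c then -1 else 0

theorem ef_none {i : ι} {m : Fin d} (h : e i m = none) (c : Fin (K + K)) : ef e i c m = 0 := by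
  simp [ef, h]

theorem ef_some {i : ι} {m : Fin d} {z : Fin K} (h : e i m = some z) (c : Fin (K + K)) :
    ef e i c m = if c = z.castAdd K then 1 else if c = z.natAdd K then -1 else 0 := by
  simp only [ef, h, Option.map_some, Option.some.injEq, eq_comm]

/-- the automaton: it guesses `i` and checks the conditions of the `i`-th set -/
def VI [Finite ι] : VASS (Option (ι × Fin (K + K))) (Fin (K + K)) d where
  T := {t | ∃ s i c, (∀ x ∈ s, x.1 = i ∧ x.2 ≤ c) ∧ t = (s, c, ef e i c, some (i, c))}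
  fin := (Set.finite_range fun x : _ × ι × _ => (x.1, x.2.2, ef e x.2.1 x.2.2, some x.2)).subset
    fun _ ⟨s, i, c, _, h⟩ => ⟨(s, i, c), h.symm⟩
  q0 := none
  c0 := 0
  F := Set.univ

def can (i : ι) : Option (ι × Fin (K + K)) → List (Fin (K + K)) →
    List (Tr (Option (ι × Fin (K + K))) (Fin (K + K)) d)
  | _, [] => []
  | s, c :: w => (s, c, ef e i c, some (i, c)) :: can i (some (i, c)) w

/-- the conditions of the `i`-th set -/
def Ok (w : List (Fin (K + K))) (i : ι) : Prop :=
  ∀ m z, e i m = some z → w.count (z.natAdd K) ≤ w.count (z.castAdd K)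

variable [Finite ι]

theorem VI_run [Nonempty ι] {ρ q} : ∀ {s v}, (VI e).Run s v ρ q → 0 ≤ v →
    ∃ i, (∀ x ∈ s, x.1 = i ∧ ∀ c ∈ wd ρ, x.2 ≤ c) ∧ ρ = can e i s (wd ρ) ∧
      (wd ρ).Pairwise (· ≤ ·) ∧
      ∀ m z, e i m = some z →
        ((wd ρ).count (z.natAdd K) : ℤ) ≤ v m + (wd ρ).count (z.castAdd K) := by
  induction ρ with
  | nil =>
    rintro (_ | ⟨i, c⟩) v - h
    · exact ⟨Classical.arbitrary _, by simp, rfl, Pairwise.nil, fun m z _ => by simpa using h m⟩
    · exact ⟨i, by simp, rfl, Pairwise.nil, fun m z _ => by simpa using h m⟩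
  | cons t ρ ih =>
    rintro _ v ⟨⟨s, i, c, a, rfl⟩, rfl, b, h⟩ -
    obtain ⟨j, k1, k2, k3, k4⟩ := ih h b
    obtain ⟨rfl, k0⟩ := k1 _ rfl
    refine ⟨i, fun x q => ⟨(a x q).1, forall_mem_cons.2 ⟨(a x q).2, fun c l => (a x q).2.trans (k0 c l)⟩⟩,
      congrArg _ k2, pairwise_cons.2 ⟨k0, k3⟩, ?_⟩
    intro m z hz
    have k5 := k4 m z hz
    have hz2 := z.2
    simp only [Pi.add_apply, ef_some e hz, wd, map_cons, count_cons, beq_iff_eq, Fin.ext_iff,
      Fin.val_castAdd, Fin.val_natAdd] at k5 ⊢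
    split_ifs at k5 ⊢ <;> push_cast at k5 ⊢ <;> omega

theorem VI_mem (i : ι) {w : List (Fin (K + K))} (h : w.Pairwise (· ≤ ·)) (h' : Ok e w i) :
    w ∈ (VI e).L := by
  have : ∀ s (v : Fin d → ℤ), 0 ≤ v → (∀ x ∈ s, x.1 = i ∧ ∀ c ∈ w, x.2 ≤ c) →
      (∀ m z, e i m = some z → (w.count (z.natAdd K) : ℤ) ≤ v m + w.count (z.castAdd K)) →
      wd (can e i s w) = w ∧ ∃ q, (VI e).Run s v (can e i s w) q := by
    clear h'
    induction w with
    | nil => exact fun s _ _ _ _ => ⟨rfl, s, rfl⟩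
    | cons c w ih =>
      intro s v a b k
      obtain ⟨h1, h2⟩ := pairwise_cons.1 h
      have k1 : 0 ≤ v + ef e i c := by
        intro m
        have am := a m
        simp only [Pi.zero_apply] at am
        rw [Pi.zero_apply, Pi.add_apply]
        rcases hm : e i m with _ | z
        · rw [ef_none e hm, add_zero]
          exact am
        · have z1 := z.2
          have z0 : c = z.natAdd K → w.count (z.castAdd K) = 0 := fun q =>
            count_eq_zero.2 fun l => by
              have := h1 _ l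
              simp [q, Fin.le_def] at this
              omega
          have km := k m z hm
          rw [ef_some e hm]
          simp only [count_cons, beq_iff_eq, Fin.ext_iff, Fin.val_castAdd, Fin.val_natAdd]
            at km z0 ⊢
          split_ifs at km ⊢ <;> push_cast at km ⊢ <;> omega
      have k2 : ∀ m z, e i m = some z →
          (w.count (z.natAdd K) : ℤ) ≤ (v + ef e i c) m + w.count (z.castAdd K) := by
        intro m z hm
        have z1 := z.2
        have km := k m z hm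
        rw [Pi.add_apply, ef_some e hm]
        simp only [count_cons, beq_iff_eq, Fin.ext_iff, Fin.val_castAdd, Fin.val_natAdd] at km ⊢
        split_ifs at km ⊢ <;> push_cast at km ⊢ <;> omega
      obtain ⟨q1, q, q2⟩ := ih h2 (some (i, c)) _ k1 (by simpa using h1) k2
      exact ⟨congrArg _ q1, q, ⟨s, i, c, fun x l => ⟨(b x l).1, (b x l).2 c (by simp)⟩, rfl⟩, rfl,
        k1, q2⟩
  obtain ⟨a, q, b⟩ := this none 0 le_rfl (by simp) (by
    intro m z hz
    have := h' m z hz
    simpa using this)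
  exact ⟨_, a, q, trivial, b⟩

theorem VI_lang [Nonempty ι] (w : List (Fin (K + K))) :
    w ∈ (VI e).L ↔ w.Pairwise (· ≤ ·) ∧ ∃ i, Ok e w i := by
  constructor
  · rintro ⟨ρ, rfl, q, -, h⟩
    obtain ⟨i, -, -, h1, h2⟩ := VI_run e h (by exact le_rfl)
    refine ⟨h1, i, fun m z hz => ?_⟩
    have := h2 m z hz
    simp only [VI, Pi.zero_apply] at this
    exact_mod_cast (by simpa using this)
  · rintro ⟨h, i, hi⟩
    exact VI_mem e i h hi

theorem VI_amb [Nonempty ι] (w : List (Fin (K + K))) : ((VI e).Acc w).encard ≤ Nat.card ι :=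
  (Set.encard_le_encard (t := (fun i => can e i none w) '' Set.univ)
    (by
      rintro ρ ⟨rfl, q, _, b⟩
      exact (VI_run e b le_rfl).imp fun i h => ⟨trivial, h.2.1.symm⟩)).trans
      ((Set.encard_image_le _ _).trans (by simp [Set.encard_univ, ENat.card_eq_coe_natCard]))

theorem kill [Nonempty ι] {Q : Type} {D : ℕ} {V : VASS Q (Fin (K + K)) D}
    (hV : ∀ w ∈ V.L, ∃ i, Ok e w i) {σ q}
    (hq : q ∈ V.F) (h : R V σ q) (hp : ∀ i, ∃ m z, e i m = some z ∧ ∃ ρ, Le V ρ σ ∧
      ∃ p : Fin (K + K) → ℕ,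
      0 < p (z.natAdd K) ∧ (∀ c ≠ z.natAdd K, p c = 0) ∧ Pu V ρ q p) : False := by
  classical
  choose M z hz hp using hp
  have : ∀ I : Finset ι, ∃ τ, R V τ q ∧ Le V σ τ ∧ ∀ i ∈ I,
      (wd τ).count ((z i).castAdd K) < (wd τ).count ((z i).natAdd K) := fun I => by
    induction I using Finset.induction with
    | empty => exact ⟨σ, h, .refl le_rfl, by simp⟩
    | insert i I _ ih =>
      obtain ⟨τ, a, b, c⟩ := ih
      obtain ⟨ρ, k, p, p1, p2, p3⟩ := hp i
      have : ∀ n, ∃ τ', R V τ' q ∧ Le V σ τ' ∧ ∀ c, (wd τ').count c = (wd τ).count c + n * p c :=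
        fun n => by
          induction n with
          | zero => exact ⟨τ, a, b, by simp⟩
          | succ n ih =>
            obtain ⟨τ', a, b, c⟩ := ih
            obtain ⟨τ'', a', b', c'⟩ := p3 τ' a (k.trans b)
            exact ⟨τ'', a', b.trans b', fun x => by rw [c', c, add_mul, one_mul, add_assoc]⟩
      obtain ⟨τ', a', b', c'⟩ := this ((wd τ).count ((z i).castAdd K) + 1)
      refine ⟨τ', a', b', fun j l => ?_⟩
      have hz2 := (z j).2
      rw [c', c', p2 _ (by simp [Fin.ext_iff]; omega), mul_zero, add_zero]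
      obtain l | l := Finset.mem_insert.1 l
      · rw [l]; nlinarith
      · exact (c j l).trans_le le_self_add
  obtain ⟨_⟩ := nonempty_fintype ι
  obtain ⟨τ, a, -, b⟩ := this Finset.univ
  obtain ⟨i, hi⟩ := hV _ ⟨τ, rfl, q, hq, a⟩
  have h1 := b i (Finset.mem_univ i)
  have h2 := hi _ _ (hz i)
  exact absurd h2 (not_le.2 h1)

/-- **the lower bound** -/
theorem lower [Nonempty ι]
    (hanti : ∀ i j : ι, (∀ m z, e i m = some z → ∃ m', e j m' = some z) → i = j)
    {Q : Type} [Finite Q] {D : ℕ} (V : VASS Q (Fin (K + K)) D)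
    (hV : V.L = (VI e).L) (n : ℕ) (hn : ∀ w, (V.Acc w).encard ≤ n) : Nat.card ι ≤ n := by
  classical
  obtain ⟨_⟩ := nonempty_fintype ι
  have hVL : ∀ w, w ∈ V.L ↔ w.Pairwise (· ≤ ·) ∧ ∃ i, Ok e w i := fun w => by rw [hV, VI_lang]
  let S : ι → Set (Fin (K + K)) := fun j => {c | ∃ m z, e j m = some z ∧ c = z.natAdd K}
  choose ρ q b1 b2 b3 using fun j : ι => base V (S j) (fun c => ⟨c - K, by omega⟩)
    (by
      rintro c ⟨m, z, -, rfl⟩
      have := z.2
      simp [Fin.lt_def]
      omega) fun u u1 u2 => (hVL u).2 ⟨u1, j, fun m z hz => by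
        have := u2 (z.natAdd K) ⟨m, z, hz, rfl⟩
        refine this.trans_eq (congrArg u.count ?_)
        simp [Fin.ext_iff]⟩
  obtain ⟨x, hx⟩ := common
    (fun j => {x | ∃ e, R V e (q j) ∧ Le V (ρ j) e ∧ ∀ c, (wd e).count c = x c})
    (fun j c => (b2 j c).imp fun p h => ⟨h.1, h.2.1, fun x ⟨e, e1, e2, e3⟩ =>
      (h.2.2.2 e e1 e2).imp fun _ k => ⟨k.1, e2.trans k.2.1, fun c => by simp [k.2.2, e3]⟩⟩)
    fun j Z z => let ⟨e, k⟩ := b3 j Z z; ⟨_, ⟨e, k.1, k.2.1, fun _ => rfl⟩, k.2.2⟩
  choose σ s1 s2 s3 using hx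
  have so : ∀ j, (wd (σ j)).Pairwise (· ≤ ·) := fun j =>
    ((hVL _).1 ⟨σ j, rfl, _, b1 j, s1 j⟩).1
  have inj : Function.Injective σ := fun j j' e' => by
    by_contra hjj
    have eq : q j' = q j := (s1 j').det (e' ▸ s1 j)
    have pu : ∀ c, c ∉ S j ∨ c ∉ S j' → ∃ ρ, Le V ρ (σ j) ∧
        ∃ p : Fin _ → ℕ, 0 < p c ∧ (∀ c' ≠ c, p c' = 0) ∧ Pu V ρ (q j) p := fun c h => h.elim
      (fun h => ⟨_, s2 j, (b2 j c).imp fun _ k => ⟨k.1, k.2.2.1 h, k.2.2.2⟩⟩)
      fun h => ⟨_, e' ▸ s2 j', (b2 j' c).imp fun _ k => ⟨k.1, k.2.2.1 h, eq ▸ k.2.2.2⟩⟩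
    refine kill e (fun w hw => ((hVL w).1 hw).2) (b1 j) (s1 j) fun i => ?_
    -- some letter of the `i`-th set is not a common letter
    by_contra hcon
    have hall : ∀ m z, e i m = some z → (z.natAdd K ∈ S j ∧ z.natAdd K ∈ S j') := by
      intro m z hz
      by_contra hc
      exact hcon ⟨m, z, hz, pu _ (by tauto)⟩
    have hinj : ∀ z z' : Fin K, z.natAdd K = z'.natAdd K → z = z' := by
      intro z z' h
      have := congrArg Fin.val h
      simp at this
      exact Fin.ext this
    have e1 : i = j := hanti i j fun m z hz => by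
      obtain ⟨m', z', h1, h2⟩ := (hall m z hz).1
      exact ⟨m', by rw [h1, hinj _ _ h2]⟩
    have e2 : i = j' := hanti i j' fun m z hz => by
      obtain ⟨m', z', h1, h2⟩ := (hall m z hz).2
      exact ⟨m', by rw [h1, hinj _ _ h2]⟩
    exact hjj (e1.symm.trans e2)
  have j : ι := Classical.arbitrary _
  have := (Set.encard_le_encard (s := σ '' Set.univ) (by
    rintro _ ⟨i, -, rfl⟩
    exact ⟨(perm_iff_count.2 fun c => (s3 i c).trans (s3 j c).symm).eq_of_pairwise
      (fun _ _ _ _ => le_antisymm) (so i) (so j), _, b1 i, s1 i⟩)).trans (hn (wd (σ j)))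
  rw [inj.encard_image, Set.encard_univ, ENat.card_eq_coe_natCard] at this
  exact_mod_cast this

end

end Pool.Agent.KS6_62.Vass
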